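import Pool.Agent.R250.GN3

set_option autoImplicit false

/-!
# MP_f39c46_an: the radius `δ(A, B)` is right for all pairs `-1 ≤ B < A ≤ 1`

Every `f` in the Janowski class `K[A, B]` satisfies `N_δ(f) ⊂ St` for `δ = δ(A, B)`, and `δ(A, B)` is
the largest such number, for every pair `-1 ≤ B < A ≤ 1`. This is a complete (positive) answer to Q1.

The proof. Let `p = f'`, `g = f / z`, `P = 1 + z f'' / f'`, and `u = cos α p - i sin α g`. If `g̃` in
`N_δ(f)` then the corresponding combination for `g̃` differs from `u` by less than `δ`, so that it is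
enough to show `|u| ≥ m(|z|)`, where `m(r) = (1 - B r) ^ ((A - B) / B)` is decreasing, `m(1) = δ(A, B)`.
Consider a minimum `(z, α)` of `|u| e ^ {ε |z|} / m(|z|)` in a disc `|z| ≤ ρ` (and over all real `α`).
By minimality in `α` the vectors `u` and `v = - ∂ u / ∂ α` are orthogonal and `|v| ≥ |u|`; by
minimality in `arg z` the number `z u' / u` is real. These facts give the identity
`1 + z u' / u = Re P (cos² α + sin² α |v|² / |u|²) ≥ Re P ≥ (1 - A |z|) / (1 - B |z|)`,
which contradicts minimality in `|z|`. (Here `Re (z f' / f) > 0` is used, which is obtained from the same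
lower bound by continuity.) The sharpness: for the function `f` with `f'(z) = (1 + B z) ^ ((A - B) / B)` add
`c z² / 2`, `c = m(r) / r`; this has a critical point at `- r`.
-/

namespace Pool.Agent.Results.MP_f39c46_an.AllJanowskiPairs

open Metric Set

/-- The class `𝒜`: analytic functions `f(z) = z + a₂ z² + ...` in the unit disc. -/
def IsA (f : ℂ → ℂ) : Prop := DifferentiableOn ℂ f (ball 0 1) ∧ f 0 = 0 ∧ deriv f 0 = 1

/-- The Taylor coefficients at `0`. -/
noncomputable def taylorCoeff (f : ℂ → ℂ) (k : ℕ) : ℂ := iteratedDeriv k f 0 / (Nat.factorial k : ℂ)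

/-- The class `St` of normalised starlike (univalent) functions. -/
def IsStarlike (f : ℂ → ℂ) : Prop :=
  IsA f ∧ InjOn f (ball 0 1) ∧ StarConvex ℝ 0 (f '' ball 0 1)

/-- `g ∈ N_δ(f)`: `∑_{k ≥ 2} k |a_k - b_k| ≤ δ`. -/
def InNeighbourhood (δ : ℝ) (f g : ℂ → ℂ) : Prop :=
  IsA g ∧
  Summable (fun k : ℕ => ((k : ℝ) + 2) * ‖taylorCoeff f (k + 2) - taylorCoeff g (k + 2)‖) ∧
  ∑' k : ℕ, ((k : ℝ) + 2) * ‖taylorCoeff f (k + 2) - taylorCoeff g (k + 2)‖ ≤ δ

/-- Subordination `F ≺ G` on the unit disc. -/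
def Subordinate (F G : ℂ → ℂ) : Prop :=
  ∃ ω : ℂ → ℂ, DifferentiableOn ℂ ω (ball 0 1) ∧ MapsTo ω (ball 0 1) (ball 0 1) ∧ ω 0 = 0 ∧
    ∀ z ∈ ball (0 : ℂ) 1, F z = G (ω z)

/-- The Janowski class `K[A, B]`. -/
def InK (A B : ℝ) (f : ℂ → ℂ) : Prop :=
  IsA f ∧ InjOn f (ball 0 1) ∧
  Subordinate (fun z => 1 + z * deriv (deriv f) z / deriv f z) (fun w => (1 + A * w) / (1 + B * w))

/-- `δ(A, B)` -/
noncomputable def delta (A B : ℝ) : ℝ :=
  if B = 0 then Real.exp (-A) else (1 - B) ^ ((A - B) / B)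

open Pool.Agent.R250.GN in
theorem delta_eq {A B : ℝ} (hB : B < 1) : delta A B = Real.exp (Mf A B 1) := by
  unfold delta Mf
  split_ifs
  · rw [mul_one]
  · rw [mul_one, Real.rpow_def_of_pos (by linarith), mul_comm]

open Pool.Agent.R250.GN in
/-- **Q1, in the affirmative, for all pairs.** `δ(A, B)` is the largest `δ` such that `N_δ(f) ⊂ St` for
every `f ∈ K[A, B]`. -/
theorem result (A B : ℝ) (hB : -1 ≤ B) (hBA : B < A) (hA : A ≤ 1) :
    IsGreatest {δ : ℝ | ∀ f : ℂ → ℂ, InK A B f → ∀ g : ℂ → ℂ, InNeighbourhood δ f g → IsStarlike g}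
      (delta A B) := by
  have hB1 : B < 1 := by linarith
  rw [delta_eq hB1]
  constructor
  · intro f hf g hg
    obtain ⟨⟨fd, f0, f1⟩, fi, ω, hω, hωm, ω0, h⟩ := hf
    obtain ⟨⟨gd, g0, g1⟩, hs, hsum⟩ := hg
    have hne : ∀ z ∈ ball (0 : ℂ) 1, deriv f z ≠ 0 := fun z hz =>
      Pool.Agent.Helper405.Conv.deriv_ne_zero_of_injOn isOpen_ball fd fi hz
    have D := dat_of hB hBA hA fd f0 f1 hne hω hωm ω0 h
    exact ⟨⟨gd, g0, g1⟩, incl hB hBA hA D fd f0 f1 gd g0 g1 hs hsum⟩
  · intro δ hδ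
    by_contra hcon
    push Not at hcon
    obtain ⟨f, fd, f0, f1, hne, h, hr⟩ := extremal hB hBA hA
    have D := dat_of hB hBA hA (ω := id) fd f0 f1 hne differentiableOn_id (mapsTo_id _) rfl
      (fun z hz => h z hz)
    have hgd : DifferentiableOn ℂ (dslope f 0) (ball 0 1) :=
      (Complex.differentiableOn_dslope (isOpen_ball.mem_nhds (mem_ball_self one_pos))).2 fd
    have hst := starlike_of_pos fd hgd (fun z _ => by
      have := sub_smul_dslope f 0 z
      rw [f0, sub_zero, sub_zero, smul_eq_mul] at this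
      exact this.symm) (fun z hz => D.pos hz)
    have hK : InK A B f := ⟨⟨fd, f0, f1⟩, hst.1, id, differentiableOn_id, mapsTo_id _, rfl,
      fun z hz => h z hz⟩
    -- the radius
    obtain ⟨r, hr0, hr1, hrδ⟩ : ∃ r : ℝ, 0 < r ∧ r < 1 ∧ Real.exp (Mf A B r) / r < δ := by
      have hc : ContinuousAt (fun r : ℝ => Real.exp (Mf A B r) / r) 1 := by
        have h1 : ContinuousAt (Mf A B) 1 :=
          (Mf_deriv (Bpos hB hBA hA zero_le_one le_rfl)).continuousAt
        exact h1.rexp.div continuousAt_id one_ne_zero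
      have h2 : ∀ᶠ r in nhds (1 : ℝ), Real.exp (Mf A B r) / r < δ := by
        apply hc.eventually_lt_const
        beta_reduce
        rw [div_one]
        exact hcon
      have h3 : ∀ᶠ r in nhdsWithin (1 : ℝ) (Iio 1), Real.exp (Mf A B r) / r < δ :=
        h2.filter_mono nhdsWithin_le_nhds
      have h4 : ∀ᶠ r in nhdsWithin (1 : ℝ) (Iio 1), r ∈ Ioo (0 : ℝ) 1 := Ioo_mem_nhdsLT zero_lt_one
      obtain ⟨r, h5, h6⟩ := (h3.and h4).exists
      exact ⟨r, h6.1, h6.2, h5⟩
    obtain ⟨m, hm⟩ : ∃ m, m = Real.exp (Mf A B r) := ⟨_, rfl⟩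
    have hm0 : 0 < m := hm ▸ Real.exp_pos _
    obtain ⟨c, hc⟩ : ∃ c : ℂ, c = ((m / (2 * r) : ℝ) : ℂ) := ⟨_, rfl⟩
    have hcn : ‖c‖ = m / (2 * r) := by
      rw [hc, Complex.norm_real, Real.norm_of_nonneg (by positivity)]
    set G : ℂ → ℂ := fun z => f z + c * z ^ 2 with hG
    have hsq : ∀ z : ℂ, HasDerivAt (fun z : ℂ => c * z ^ 2) (c * (2 * z)) z := by
      intro z
      have := (hasDerivAt_pow 2 z).const_mul c
      refine this.congr_deriv ?_
      simp
    have Gd' : ∀ z ∈ ball (0 : ℂ) 1, HasDerivAt G (deriv f z + c * (2 * z)) z := fun z hz =>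
      (fd.differentiableAt (isOpen_ball.mem_nhds hz)).hasDerivAt.add (hsq z)
    have Gd : DifferentiableOn ℂ G (ball 0 1) := fun z hz =>
      (Gd' z hz).differentiableAt.differentiableWithinAt
    have hterm : ∀ k : ℕ, ((k : ℝ) + 2) * ‖taylorCoeff f (k + 2) - taylorCoeff G (k + 2)‖ =
        if k = 0 then m / r else 0 := by
      intro k
      have h1 : taylorCoeff G (k + 2) = taylorCoeff f (k + 2) + if k + 2 = 2 then c else 0 :=
        tc_add_sq fd c (k + 2)
      rw [h1, sub_add_cancel_left, norm_neg]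
      by_cases hk : k = 0
      · rw [if_pos hk, if_pos (by omega), hcn, hk]
        push_cast
        field_simp
        ring
      · rw [if_neg hk, if_neg (by omega), norm_zero, mul_zero]
    have hnbh : InNeighbourhood δ f G := by
      refine ⟨⟨Gd, ?_, ?_⟩, ?_, ?_⟩
      · simp [hG, f0]
      · rw [(Gd' 0 (mem_ball_self one_pos)).deriv, f1]
        simp
      · simp only [hterm]
        exact summable_of_ne_finset_zero (s := {0}) (fun k hk => if_neg (by simpa using hk))
      · simp only [hterm]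
        rw [tsum_ite_eq]
        rw [← hm] at hrδ
        exact hrδ.le
    have hS := hδ f hK G hnbh
    have hmem : -(r : ℂ) ∈ ball (0 : ℂ) 1 := by
      rw [mem_ball_zero_iff, norm_neg, Complex.norm_real, Real.norm_of_nonneg hr0.le]
      exact hr1
    have h0 := Pool.Agent.Helper405.Conv.deriv_ne_zero_of_injOn isOpen_ball Gd hS.2.1 hmem
    apply h0
    rw [(Gd' _ hmem).deriv, hr r hr0 hr1, ← hm, hc]
    have : (r : ℂ) ≠ 0 := by exact_mod_cast hr0.ne'
    push_cast
    field_simp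
    ring

end Pool.Agent.Results.MP_f39c46_an.AllJanowskiPairs
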